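import Pool.Agent.Helper33.TB.Goals

/-!
# Project TB (MP_74f661_nt), packet AV: the average `Av (X V)` as a series
-/

set_option autoImplicit false

open Finset Filter Topology

namespace Pool.Agent.Helper49.TB

open Pool.Agent.Helper90.Twin (Ps Gz Xz)
open Pool.Agent.Helper33.TB

theorem Av_add (Q : ℕ) (f g : ℤ → ℝ) : Av Q (fun t => f t + g t) = Av Q f + Av Q g := by
  unfold Av
  rw [Finset.sum_add_distrib, add_div]

theorem Av_smul (Q : ℕ) (c : ℝ) (f : ℤ → ℝ) : Av Q (fun t => c * f t) = c * Av Q f := by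
  unfold Av
  rw [← Finset.mul_sum, mul_div_assoc]

theorem Av_sum {ι : Type} (Q : ℕ) (S : Finset ι) (f : ι → ℤ → ℝ) :
    Av Q (fun t => ∑ i ∈ S, f i t) = ∑ i ∈ S, Av Q (f i) := by
  unfold Av
  rw [Finset.sum_comm, Finset.sum_div]

theorem Av_abs (Q : ℕ) (f : ℤ → ℝ) (M : ℝ) (hM : 0 ≤ M) (h : ∀ t, |f t| ≤ M) : |Av Q f| ≤ M := by
  unfold Av
  rcases Nat.eq_zero_or_pos Q with hQ | hQ
  · subst hQ
    simpa using hM
  · have hQ' : (0 : ℝ) < Q := by exact_mod_cast hQ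
    rw [abs_div, abs_of_pos hQ', div_le_iff₀ hQ']
    calc |∑ t ∈ range Q, f (t : ℤ)| ≤ ∑ t ∈ range Q, |f (t : ℤ)| := Finset.abs_sum_le_sum_abs _ _
      _ ≤ ∑ _t ∈ range Q, M := Finset.sum_le_sum fun t _ => h t
      _ = M * Q := by rw [Finset.sum_const, Finset.card_range, nsmul_eq_mul, mul_comm]

theorem per_bound (hP : StmtPER) (Q : ℕ) (hQ : 0 < Q) (V : ℤ → ℝ) (hV : Per Q V) :
    ∃ M : ℝ, 0 ≤ M ∧ ∀ t, |V t| ≤ M := by
  refine ⟨∑ j ∈ range Q, |V (j : ℤ)|, Finset.sum_nonneg fun _ _ => abs_nonneg _, fun t => ?_⟩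
  have hQ' : (0 : ℤ) < Q := by exact_mod_cast hQ
  have h1 : V t = V (t % Q) := by
    have := hP.per_int Q V hV (t % Q) (t / Q)
    rw [← this]
    congr 1
    rw [mul_comm]
    exact (Int.emod_add_mul_ediv t Q).symm
  obtain ⟨j, hj⟩ := Int.eq_ofNat_of_zero_le (Int.emod_nonneg t hQ'.ne')
  have h2 : j < Q := by
    have := Int.emod_lt_of_pos t hQ'
    rw [hj] at this
    exact_mod_cast this
  rw [h1, hj]
  exact Finset.single_le_sum (f := fun j : ℕ => |V (j : ℤ)|) (fun _ _ => abs_nonneg _)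
    (Finset.mem_range.2 h2)

/-- **AV** -/
theorem av (h1 : StmtPER) (h2 : StmtXSB) (h3 : StmtPCR) (h4 : StmtEXP) : StmtAV := by
  intro L s V hs hs1 hV hR
  set Q := QS (Ps L) with hQd
  set X := XS (Ps L) with hX
  have hPs : ∀ p ∈ Ps L, p.Prime ∧ 5 ≤ p := fun p hp =>
    ⟨(Pool.Agent.Helper90.Twin.mem_Ps.1 hp).2.2, (Pool.Agent.Helper90.Twin.mem_Ps.1 hp).1⟩
  have hQ : 0 < Q := (h2.ne _ hPs).pos
  obtain ⟨M, hM0, hM⟩ := per_bound h1 Q hQ V hV
  have hG : 0 < Gz L := Pool.Agent.Helper90.Twin.Gz_pos L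
  have hX1 : ∀ t, |X t| ≤ 1 := by
    intro t
    rcases h2.zo (Ps L) t with h | h
    · rw [hX, h]; simp
    · rw [hX, h]; simp
  -- the partial sums
  set f : ℕ → ℝ := fun h => (-1) ^ (h + 1) * ((1 - s) ^ h * PL L (h + 1)) with hf
  have e2 : ∀ (g : ℕ → ℝ) (H : ℕ), ∑ h ∈ Icc 1 H, g h = ∑ h ∈ range H, g (h + 1) := by
    intro g H
    induction H with
    | zero => simp
    | succ H ih => rw [Finset.sum_Icc_succ_top (by omega), ih, Finset.sum_range_succ]
  have hexp : ∀ H : ℕ, Av Q (fun t => X t * V t) = Gz L * ∑ h ∈ range H, f h +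
      (-1) ^ H * (1 - s) ^ H * Av Q (fun t => X t * V (t - (H : ℤ))) := by
    intro H
    have e1 : (fun t => X t * V t) = fun t => (∑ h ∈ Icc 1 H, ((-1) ^ h * (1 - s) ^ (h - 1)) *
        (X t * X (t - (h : ℤ)))) + (((-1) ^ H * (1 - s) ^ H) * (X t * V (t - (H : ℤ)))) := by
      funext t
      rw [h4.2 X s V hR t H, mul_add, Finset.mul_sum]
      congr 1
      · refine Finset.sum_congr rfl fun h _ => ?_
        ring
      · ring
    rw [e1, Av_add, Av_smul, Av_sum]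
    congr 1
    rw [e2, Finset.mul_sum]
    refine Finset.sum_congr rfl fun h _ => ?_
    rw [Av_smul, (h3 L (h + 1) (by omega)).2, hf, Nat.add_sub_cancel]
    ring
  -- summability
  have hPL : ∀ h, |PL L (h + 1)| ≤ (Gz L)⁻¹ := by
    intro h
    have e3 : |Gz L * PL L (h + 1)| ≤ 1 := by
      rw [← (h3 L (h + 1) (by omega)).2]
      refine Av_abs _ _ 1 zero_le_one fun t => ?_
      rw [abs_mul]
      calc |XS (Ps L) t| * |XS (Ps L) (t - ((h + 1 : ℕ) : ℤ))| ≤ 1 * 1 :=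
            mul_le_mul (hX1 _) (hX1 _) (abs_nonneg _) zero_le_one
        _ = 1 := one_mul 1
    rw [abs_mul, abs_of_pos hG] at e3
    rw [← one_div, le_div_iff₀ hG, mul_comm]
    exact e3
  have h01 : 0 ≤ 1 - s := by linarith
  have h02 : 1 - s < 1 := by linarith
  have hfs : Summable f := by
    refine Summable.of_norm_bounded (g := fun h => (Gz L)⁻¹ * (1 - s) ^ h)
      ((summable_geometric_of_lt_one h01 h02).mul_left _) fun h => ?_
    rw [hf, Real.norm_eq_abs, abs_mul, abs_mul, abs_pow, abs_neg, abs_one, one_pow, one_mul,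
      abs_pow, abs_of_nonneg h01, mul_comm]
    exact mul_le_mul_of_nonneg_right (hPL h) (pow_nonneg h01 h)
  have hlim1 : Tendsto (fun H => Gz L * ∑ h ∈ range H, f h) atTop (𝓝 (Gz L * ∑' h, f h)) :=
    (hfs.hasSum.tendsto_sum_nat).const_mul _
  have hlim2 : Tendsto (fun H : ℕ => (-1) ^ H * (1 - s) ^ H *
      Av Q (fun t => X t * V (t - (H : ℤ)))) atTop (𝓝 0) := by
    refine squeeze_zero_norm (a := fun H : ℕ => (1 - s) ^ H * M) (fun H => ?_) ?_
    · rw [Real.norm_eq_abs, abs_mul, abs_mul, abs_pow, abs_neg, abs_one, one_pow, one_mul,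
        abs_pow, abs_of_nonneg h01]
      refine mul_le_mul_of_nonneg_left ?_ (pow_nonneg h01 H)
      refine Av_abs _ _ M hM0 fun t => ?_
      rw [abs_mul]
      calc |X t| * |V (t - (H : ℤ))| ≤ 1 * M :=
            mul_le_mul (hX1 _) (hM _) (abs_nonneg _) zero_le_one
        _ = M := one_mul M
    · have := (tendsto_pow_atTop_nhds_zero_of_lt_one h01 h02).mul_const M
      simpa using this
  have hlim := hlim1.add hlim2
  rw [add_zero] at hlim
  have hc : Tendsto (fun _ : ℕ => Av Q (fun t => X t * V t)) atTop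
      (𝓝 (Av Q (fun t => X t * V t))) := tendsto_const_nhds
  refine tendsto_nhds_unique hc (hlim.congr fun H => ?_)
  exact (hexp H).symm

end Pool.Agent.Helper49.TB
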