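import Pool.Agent.Helper76.TB.GoalsT
import Pool.Agent.Helper76.TB.Iface
import Pool.Agent.Helper87.BFT.LOW

/-!
# Project TB, packet LOW2: the main terms
-/

set_option autoImplicit false

open Finset Filter Topology

namespace Pool.Agent.Helper49.TB

open Pool.Agent.Helper76.TB
open Pool.Agent.Helper60.BFT (len mT)
open Pool.Agent.Helper90.Twin (Ps Gz Gz_anti Gz_pos)

theorem WW_ge (Z : ℕ → ℕ) (hZ : ∀ n, Z n ≤ n) (R : ℕ) :
    Gz (R ^ 4) / 6 * (R : ℝ) ^ 4 ≤ WW Z R := by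
  unfold WW
  rw [← Pool.Agent.Helper87.BFT.sum_len 4 R (by norm_num), Finset.mul_sum]
  apply Finset.sum_le_sum
  intro r hr
  unfold mT
  have h1 : Z (r ^ 4) ≤ R ^ 4 :=
    (hZ _).trans (Nat.pow_le_pow_left (mem_range.1 hr).le 4)
  have h2 := Gz_anti h1
  have h3 : (0 : ℝ) ≤ len 4 r := Nat.cast_nonneg _
  nlinarith [mul_le_mul_of_nonneg_left h2 h3]

/-- **LOW2** -/
theorem low2 (h1 : GZLG) : Pool.Agent.Helper76.TB.LOW2G := by
  intro Z hZ
  obtain ⟨c, C, hc, h⟩ := h1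
  refine ⟨c / 96, by positivity, ?_⟩
  have ht : Tendsto (fun R : ℕ => R ^ 4) atTop atTop := tendsto_pow_atTop (by norm_num)
  filter_upwards [ht.eventually h, eventually_ge_atTop 2] with R h2 h3
  have h4 : (2 : ℝ) ≤ R := by exact_mod_cast h3
  have hl : 0 < Real.log R := Real.log_pos (by linarith)
  have h5 := h2.1
  push_cast at h5
  rw [Real.log_pow] at h5
  push_cast at h5
  refine le_trans ?_ (WW_ge Z hZ R)
  have h6 : c / (16 * Real.log R ^ 2) ≤ Gz (R ^ 4) := by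
    rw [div_le_iff₀ (by positivity)]
    calc c ≤ Gz (R ^ 4) * (4 * Real.log R) ^ 2 := h5
      _ = Gz (R ^ 4) * (16 * Real.log R ^ 2) := by ring
  calc c / 96 * ((R : ℝ) ^ 4 / Real.log R ^ 2)
      = (c / (16 * Real.log R ^ 2)) / 6 * (R : ℝ) ^ 4 := by
        field_simp
        ring
    _ ≤ Gz (R ^ 4) / 6 * (R : ℝ) ^ 4 := by
        refine mul_le_mul_of_nonneg_right ?_ (by positivity)
        linarith

end Pool.Agent.Helper49.TB
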